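import Pool.Agent.H584R3.BuDefs

/-!
Equivariant unital `*`-homomorphisms from a compact quantum group to an equivariant join.
-/

open H584BuDefs

namespace H848NJ

/-- The comultiplication `Δ` of `H` is symmetric: `Δ(h)` is invariant under the flip of the two
tensor factors, for every `h ∈ H`. -/
def IsCocomm {Y : Type} (H : Set (Op Y)) (Δ : Op Y → Op (Y × Y)) : Prop :=
  ∀ h ∈ H, ∀ y z y' z', coeff (Δ h) (y, z) (y', z') = coeff (Δ h) (z, y) (z', y')

/-- Only the scalars `h ∈ H` satisfy `Δ(h) = h ⊗ 1`. -/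
def FixedScalar {Y : Type} (H : Set (Op Y)) (Δ : Op Y → Op (Y × Y)) : Prop :=
  ∀ h ∈ H, IsTensor h 1 (Δ h) → ∃ c : ℂ, ∀ y y', coeff h y y' = c * coeff 1 y y'

/-- `Φ` restricts to an `H`-equivariant unital `*`-homomorphism `(H, Δ) → (A *_δ H, id ⊗ Δ)`.  The
algebraic operations and the coaction `id ⊗ Δ` on the join are pointwise in `t ∈ [0,1]`, so
that equivariance means `(Φ_t ⊗ id) ∘ Δ = (id ⊗ Δ) ∘ Φ_t` for all `t`, where
`Φ_t = ev_t ∘ Φ : H → A ⊗ H`. -/
structure IsEquivToJoin {X Y : Type} (A : Set (Op X)) (H : Set (Op Y))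
    (Δ : Op Y → Op (Y × Y)) (δ : Op X → Op (X × Y)) (Φ : Op Y → unitInterval → Op (X × Y)) :
    Prop where
  maps : ∀ h ∈ H, Φ h ∈ join A H δ
  hom : ∀ t, IsHom H (tens A H) (fun h => Φ h t)
  equivariant : ∀ t, Compat H A H Δ Δ (fun h => Φ h t) (fun h => Φ h t)

/-- `g` is a group-like element of `H`. -/
def GroupLike {Y : Type} (H : Set (Op Y)) (Δ : Op Y → Op (Y × Y)) (g : Op Y) : Prop :=
  g ∈ H ∧ IsTensor g g (Δ g)

/-- `u` is a unitary representation of the group `Γ` on `ℓ²(Y)`. -/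
structure IsUnitaryRep {Y Γ : Type} [Group Γ] (u : Γ → Op Y) : Prop where
  one : u 1 = 1
  mul : ∀ g h, u (g * h) = u g * u h
  adj : ∀ g, star (u g) = u g⁻¹

/-- Some finitely generated group `Γ` with finite abelianization has a nontrivial homomorphism to
the group of group-like unitaries of `H`. -/
def HasFinAbGroup {Y : Type} (H : Set (Op Y)) (Δ : Op Y → Op (Y × Y)) : Prop :=
  ∃ (Γ : Type) (_ : Group Γ) (u : Γ → Op Y), Group.FG Γ ∧ Finite (Abelianization Γ) ∧
    IsUnitaryRep u ∧ (∀ g, GroupLike H Δ (u g)) ∧ ∃ g, u g ≠ u 1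

/-- A compact quantum group, represented on `ℓ²(Y)`. -/
structure QGroup (Y : Type) where
  /-- The C*-algebra. -/
  H : Set (Op Y)
  /-- The comultiplication. -/
  Δ : Op Y → Op (Y × Y)
  isCQG : IsCQG H Δ

/-- A unital C*-algebra on `ℓ²(X)` with a free action of the compact quantum group `Q`. -/
structure FreeAction (X : Type) {Y : Type} (Q : QGroup Y) where
  /-- The C*-algebra. -/
  A : Set (Op X)
  /-- The action. -/
  δ : Op X → Op (X × Y)
  free : IsFreeCoaction A Q.H Q.Δ δ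

/-- There is a `Q`-equivariant unital `*`-homomorphism from `H` to the equivariant join. -/
def HasEquivToJoin {X Y : Type} (Q : QGroup Y) (F : FreeAction X Q) : Prop :=
  ∃ Φ : Op Y → unitInterval → Op (X × Y), IsEquivToJoin F.A Q.H Q.Δ F.δ Φ

end H848NJ
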