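import Mathlib

/-!
Isolation of one-dimensional representations along a path, for a finitely generated group whose
abelianization is finite.
-/

open scoped commutatorElement

namespace H848NJ

section

variable {G : Type*} [Group G] {B : Type*} [NormedRing B]

theorem d_mul (R : G →* B) (hn : ∀ g, ‖R g‖ ≤ 1) (g h : G) :
    ‖R (g * h) - 1‖ ≤ ‖R g - 1‖ + ‖R h - 1‖ := by
  have e : R (g * h) - 1 = R g * (R h - 1) + (R g - 1) := by
    rw [map_mul]; noncomm_ring
  rw [e]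
  have h1 : ‖R g * (R h - 1)‖ ≤ ‖R h - 1‖ := by
    refine (norm_mul_le _ _).trans ?_
    have := mul_le_mul_of_nonneg_right (hn g) (norm_nonneg (R h - 1))
    simpa using this
  have h2 := norm_add_le (R g * (R h - 1)) (R g - 1)
  linarith

theorem d_inv (R : G →* B) (hn : ∀ g, ‖R g‖ ≤ 1) (g : G) : ‖R g⁻¹ - 1‖ ≤ ‖R g - 1‖ := by
  have e : R g⁻¹ - 1 = R g⁻¹ * (1 - R g) := by
    rw [mul_sub, mul_one, ← map_mul, inv_mul_cancel, map_one]
  rw [e]
  refine (norm_mul_le _ _).trans ?_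
  rw [norm_sub_rev 1 (R g)]
  have := mul_le_mul_of_nonneg_right (hn g⁻¹) (norm_nonneg (R g - 1))
  simpa using this

theorem d_comm (R : G →* B) (hn : ∀ g, ‖R g‖ ≤ 1) (g h : G) :
    ‖R ⁅g, h⁆ - 1‖ ≤ 2 * (‖R g - 1‖ * ‖R h - 1‖) := by
  have e1 : R h * R g * R g⁻¹ * R h⁻¹ = 1 := by
    rw [← map_mul, ← map_mul, ← map_mul]
    have : h * g * g⁻¹ * h⁻¹ = 1 := by group
    rw [this, map_one]
  have e : R ⁅g, h⁆ - 1 = ((R g - 1) * (R h - 1) - (R h - 1) * (R g - 1)) * R g⁻¹ * R h⁻¹ := by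
    have e2 : (R g - 1) * (R h - 1) - (R h - 1) * (R g - 1) = R g * R h - R h * R g := by
      noncomm_ring
    rw [e2, sub_mul, sub_mul, e1, commutatorElement_def, map_mul, map_mul, map_mul]
  rw [e]
  have h1 : ‖((R g - 1) * (R h - 1) - (R h - 1) * (R g - 1)) * R g⁻¹ * R h⁻¹‖ ≤
      ‖(R g - 1) * (R h - 1) - (R h - 1) * (R g - 1)‖ := by
    refine (norm_mul_le _ _).trans ?_
    have h2 := mul_le_mul_of_nonneg_left (hn h⁻¹)
      (norm_nonneg (((R g - 1) * (R h - 1) - (R h - 1) * (R g - 1)) * R g⁻¹))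
    rw [mul_one] at h2
    refine h2.trans ?_
    refine (norm_mul_le _ _).trans ?_
    have h3 := mul_le_mul_of_nonneg_left (hn g⁻¹)
      (norm_nonneg ((R g - 1) * (R h - 1) - (R h - 1) * (R g - 1)))
    rw [mul_one] at h3
    exact h3
  refine h1.trans ?_
  refine (norm_sub_le _ _).trans ?_
  have h4 := norm_mul_le (R g - 1) (R h - 1)
  have h5 := norm_mul_le (R h - 1) (R g - 1)
  have h6 : ‖R h - 1‖ * ‖R g - 1‖ = ‖R g - 1‖ * ‖R h - 1‖ := mul_comm _ _
  linarith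

theorem d_pow {B : Type*} [NormedRing B] [NormedAlgebra ℂ B] (a : B) (ha : ‖a‖ ≤ 1) (m : ℕ) :
    ‖a ^ m - 1 - (m : ℂ) • (a - 1)‖ ≤ (m : ℝ) ^ 2 * ‖a - 1‖ ^ 2 := by
  induction m with
  | zero => simp
  | succ m ih =>
    have e : a ^ (m + 1) - 1 - ((m + 1 : ℕ) : ℂ) • (a - 1) =
        a * (a ^ m - 1 - (m : ℂ) • (a - 1)) + (m : ℂ) • ((a - 1) * (a - 1)) := by
      rw [mul_sub, mul_sub, mul_smul_comm, pow_succ']
      push_cast
      rw [add_smul, one_smul, sub_mul, one_mul, smul_sub (m : ℂ) (a * (a - 1))]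
      noncomm_ring
    rw [e]
    have h1 : ‖a * (a ^ m - 1 - (m : ℂ) • (a - 1))‖ ≤ ‖a ^ m - 1 - (m : ℂ) • (a - 1)‖ := by
      refine (norm_mul_le _ _).trans ?_
      have := mul_le_mul_of_nonneg_right ha (norm_nonneg (a ^ m - 1 - (m : ℂ) • (a - 1)))
      simpa using this
    have h2 : ‖(m : ℂ) • ((a - 1) * (a - 1))‖ ≤ (m : ℝ) * ‖a - 1‖ ^ 2 := by
      rw [norm_smul, Complex.norm_natCast, pow_two]
      exact mul_le_mul_of_nonneg_left (norm_mul_le _ _) (Nat.cast_nonneg m)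
    have h3 := norm_add_le (a * (a ^ m - 1 - (m : ℂ) • (a - 1))) ((m : ℂ) • ((a - 1) * (a - 1)))
    have h4 : 0 ≤ ‖a - 1‖ ^ 2 := by positivity
    have h5 : (0 : ℝ) ≤ m := Nat.cast_nonneg m
    push_cast
    nlinarith

theorem isolation' {B : Type*} [NormedRing B] [NormedAlgebra ℂ B] (hfg : Group.FG G)
    (hfin : Finite (Abelianization G)) (R : unitInterval → G →* B)
    (hn : ∀ t g, ‖R t g‖ ≤ 1) (hcont : ∀ g, Continuous fun t => R t g)
    (hR0 : ∀ g, R 0 g = 1) : ∀ t g, R t g = 1 := by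
  obtain ⟨S, hS⟩ := hfg.out
  set r : unitInterval → ℝ := fun t => ∑ s ∈ S, ‖R t s - 1‖ with hr
  have hr0 : ∀ t, 0 ≤ r t := fun t => Finset.sum_nonneg fun s _ => norm_nonneg _
  have c1 : ∀ g : G, ∃ C : ℝ, 0 ≤ C ∧ ∀ t, ‖R t g - 1‖ ≤ C * r t := by
    intro g
    have hg : g ∈ Subgroup.closure (S : Set G) := by rw [hS]; trivial
    induction hg using Subgroup.closure_induction with
    | mem x hx =>
      refine ⟨1, zero_le_one, fun t => ?_⟩
      rw [one_mul]
      exact Finset.single_le_sum (f := fun s => ‖R t s - 1‖) (fun s _ => norm_nonneg _) hx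
    | one => exact ⟨0, le_rfl, fun t => by simp⟩
    | mul x y _ _ hx hy =>
      obtain ⟨C, hC, h1⟩ := hx
      obtain ⟨D, hD, h2⟩ := hy
      refine ⟨C + D, add_nonneg hC hD, fun t => ?_⟩
      have := d_mul (R t) (hn t) x y
      have := h1 t
      have := h2 t
      linarith
    | inv x _ hx =>
      obtain ⟨C, hC, h1⟩ := hx
      exact ⟨C, hC, fun t => (d_inv (R t) (hn t) x).trans (h1 t)⟩
  have c2 : ∀ g ∈ commutator G, ∃ C : ℝ, 0 ≤ C ∧ ∀ t, ‖R t g - 1‖ ≤ C * (r t) ^ 2 := by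
    intro g hg
    rw [commutator_eq_closure] at hg
    induction hg using Subgroup.closure_induction with
    | mem x hx =>
      obtain ⟨a, b, rfl⟩ := hx
      obtain ⟨C, hC, h1⟩ := c1 a
      obtain ⟨D, hD, h2⟩ := c1 b
      refine ⟨2 * (C * D), by positivity, fun t => ?_⟩
      have h3 := d_comm (R t) (hn t) a b
      have h4 : ‖R t a - 1‖ * ‖R t b - 1‖ ≤ (C * r t) * (D * r t) :=
        mul_le_mul (h1 t) (h2 t) (norm_nonneg _) (mul_nonneg hC (hr0 t))
      have h5 : (C * r t) * (D * r t) = (C * D) * r t ^ 2 := by ring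
      rw [h5] at h4
      linarith
    | one => exact ⟨0, le_rfl, fun t => by simp⟩
    | mul x y _ _ hx hy =>
      obtain ⟨C, hC, h1⟩ := hx
      obtain ⟨D, hD, h2⟩ := hy
      refine ⟨C + D, add_nonneg hC hD, fun t => ?_⟩
      have := d_mul (R t) (hn t) x y
      have := h1 t
      have := h2 t
      linarith
    | inv x _ hx =>
      obtain ⟨C, hC, h1⟩ := hx
      exact ⟨C, hC, fun t => (d_inv (R t) (hn t) x).trans (h1 t)⟩
  have c3 : ∀ g ∈ S, ∃ C : ℝ, 0 ≤ C ∧ ∀ t, ‖R t g - 1‖ ≤ C * (r t) ^ 2 := by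
    intro g hgS
    set m : ℕ := Nat.card (Abelianization G) with hm
    have hm1 : 1 ≤ m := Nat.card_pos
    have hgm : g ^ m ∈ commutator G := by
      have h1 : (Abelianization.of (g ^ m) : Abelianization G) = 1 := by
        rw [map_pow, hm, pow_card_eq_one']
      exact (QuotientGroup.eq_one_iff _).mp h1
    obtain ⟨C, hC, h1⟩ := c2 _ hgm
    refine ⟨C + (m : ℝ) ^ 2, by positivity, fun t => ?_⟩
    have h2 := d_pow (R t g) (hn t g) m
    have h3 := h1 t
    rw [map_pow] at h3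
    have h4 : ‖R t g - 1‖ ≤ r t :=
      Finset.single_le_sum (f := fun s => ‖R t s - 1‖) (fun s _ => norm_nonneg _) hgS
    have h5 : (m : ℝ) * ‖R t g - 1‖ = ‖(m : ℂ) • (R t g - 1)‖ := by
      rw [norm_smul, Complex.norm_natCast]
    have h6 : ‖(m : ℂ) • (R t g - 1)‖ ≤
        ‖R t g ^ m - 1‖ + ‖R t g ^ m - 1 - (m : ℂ) • (R t g - 1)‖ := by
      have := norm_sub_le (R t g ^ m - 1) (R t g ^ m - 1 - (m : ℂ) • (R t g - 1))
      rwa [sub_sub_cancel] at this
    have h7 : ‖R t g - 1‖ ^ 2 ≤ r t ^ 2 := pow_le_pow_left₀ (norm_nonneg _) h4 2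
    have h8 : (m : ℝ) ^ 2 * ‖R t g - 1‖ ^ 2 ≤ (m : ℝ) ^ 2 * r t ^ 2 :=
      mul_le_mul_of_nonneg_left h7 (by positivity)
    have h9 : ‖R t g - 1‖ ≤ (m : ℝ) * ‖R t g - 1‖ := by
      have hm2 : (1 : ℝ) ≤ m := by exact_mod_cast hm1
      nlinarith [norm_nonneg (R t g - 1)]
    linarith
  choose! C hC hC2 using c3
  set K : ℝ := ∑ s ∈ S, C s with hK
  have hK0 : 0 ≤ K := Finset.sum_nonneg fun s hs => hC s hs
  have hrK : ∀ t, r t ≤ K * (r t) ^ 2 := by
    intro t
    rw [hK, Finset.sum_mul]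
    exact Finset.sum_le_sum fun s hs => hC2 s hs t
  have hrc : Continuous r :=
    continuous_finsetSum _ fun s _ => ((hcont s).sub continuous_const).norm
  have hrz : r 0 = 0 := by
    rw [hr]
    refine Finset.sum_eq_zero fun s _ => ?_
    rw [hR0 s, sub_self, norm_zero]
  have hall : ∀ t, r t = 0 := by
    intro t
    by_contra hne
    have hpos : 0 < r t := lt_of_le_of_ne (hr0 t) (Ne.symm hne)
    have h1 : 1 ≤ K * r t := by
      have := hrK t
      by_contra hlt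
      push Not at hlt
      nlinarith
    have hKpos : 0 < K := by
      by_contra hle
      push Not at hle
      have : K = 0 := le_antisymm hle hK0
      rw [this, zero_mul] at h1
      linarith
    have h2 : (2 * K)⁻¹ ∈ Set.range r := by
      refine mem_range_of_exists_le_of_exists_ge hrc ⟨0, ?_⟩ ⟨t, ?_⟩
      · rw [hrz]; positivity
      · rw [inv_le_iff_one_le_mul₀ (by positivity)]
        nlinarith
    obtain ⟨t', ht'⟩ := h2
    have h3 := hrK t'
    rw [ht'] at h3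
    have h4 : K * ((2 * K)⁻¹) ^ 2 = (2 * K)⁻¹ * (1 / 2) := by
      field_simp
    rw [h4] at h3
    have h5 : 0 < (2 * K)⁻¹ := by positivity
    linarith
  intro t g
  obtain ⟨D, hD, h1⟩ := c1 g
  have h2 := h1 t
  rw [hall t, mul_zero] at h2
  have h3 : ‖R t g - 1‖ = 0 := le_antisymm h2 (norm_nonneg _)
  exact sub_eq_zero.mp (norm_eq_zero.mp h3)

theorem isolation {B : Type*} [NormedRing B] [NormedAlgebra ℂ B] (hfg : Group.FG G)
    (hfin : Finite (Abelianization G)) (R : unitInterval → G →* B)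
    (hn : ∀ t g, ‖R t g‖ ≤ 1) (hcont : ∀ g, Continuous fun t => R t g)
    (h0 : ∀ g, ∃ c : ℂ, R 0 g = c • (1 : B)) : ∀ t g, R t g = R 0 g := by
  have hcomm : ∀ g b, R 0 g * b = b * R 0 g := by
    intro g b
    obtain ⟨c, hc⟩ := h0 g
    rw [hc, smul_mul_assoc, mul_smul_comm, one_mul, mul_one]
  let Q : unitInterval → G →* B := fun t =>
    { toFun := fun g => R 0 g⁻¹ * R t g
      map_one' := by rw [inv_one, map_one, map_one, one_mul]
      map_mul' := fun g h => by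
        rw [mul_inv_rev, map_mul, map_mul]
        calc R 0 h⁻¹ * R 0 g⁻¹ * (R t g * R t h) = R 0 h⁻¹ * (R 0 g⁻¹ * R t g) * R t h := by
              noncomm_ring
          _ = (R 0 g⁻¹ * R t g) * R 0 h⁻¹ * R t h := by rw [hcomm h⁻¹]
          _ = R 0 g⁻¹ * R t g * (R 0 h⁻¹ * R t h) := by noncomm_ring }
  have hQ : ∀ t g, Q t g = R 0 g⁻¹ * R t g := fun t g => rfl
  have h1 := isolation' hfg hfin Q ?_ ?_ ?_
  · intro t g
    have h2 := h1 t g
    rw [hQ] at h2
    have h3 : R 0 g * (R 0 g⁻¹ * R t g) = R t g := by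
      rw [← mul_assoc, ← map_mul, mul_inv_cancel, map_one, one_mul]
    rw [h2, mul_one] at h3
    exact h3.symm
  · intro t g
    rw [hQ]
    refine (norm_mul_le _ _).trans ?_
    calc ‖R 0 g⁻¹‖ * ‖R t g‖ ≤ 1 * 1 :=
          mul_le_mul (hn _ _) (hn _ _) (norm_nonneg _) zero_le_one
      _ = 1 := one_mul 1
  · intro g
    exact continuous_const.mul (hcont g)
  · intro g
    rw [hQ, ← map_mul, inv_mul_cancel, map_one]

end

end H848NJ
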