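import Pool.Agent.H584R3.Bu7
import Pool.Agent.H848R3.NJ.Defs
import Pool.Agent.H848R3.NJ.Isol

/-!
Group-like unitaries under an equivariant homomorphism into a join.
-/

open H584BuDefs
open H584Bu (tn tn_entry tn_mul tn_one tn_star tn_smul_left isTensor_iff coeff_eq tens_csub tens_le
  tn_mem_tens CSub pull pull_entry norm_pull op_ext entry_one entry_add entry_smul norm_entry_le
  hasSum_entry_mul norm_uni cspan_csub)
open H584Roe (entry)

set_option linter.unusedSectionVars false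

noncomputable section

namespace H848NJ

/-- `A` as a star subalgebra. -/
def sub {X : Type} {A : Set (Op X)} (hA : IsCAlg A) : StarSubalgebra ℂ (Op X) where
  carrier := A
  mul_mem' := fun {a b} ha hb => hA.mul a ha b hb
  one_mem' := hA.one
  add_mem' := fun {a b} ha hb => hA.subspace.add a ha b hb
  zero_mem' := hA.subspace.zero
  algebraMap_mem' := fun c => by
    rw [Algebra.algebraMap_eq_smul_one]; exact hA.subspace.smul c 1 hA.one
  star_mem' := fun {a} ha => hA.adj a ha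

theorem hom_zero {X Y : Type} {A : Set (Op X)} {B : Set (Op Y)} {φ : Op X → Op Y}
    (hA : IsCAlg A) (h : IsHom A B φ) : φ 0 = 0 := by
  have := h.lin.smul 0 1 hA.one
  rw [zero_smul, zero_smul] at this
  exact this

/-- `φ` as a `*`-homomorphism. -/
def subHom {X Y : Type} {A : Set (Op X)} {B : Set (Op Y)} {φ : Op X → Op Y}
    (hA : IsCAlg A) (h : IsHom A B φ) : sub hA →⋆ₙₐ[ℂ] Op Y where
  toFun := fun a => φ a.1
  map_smul' := fun c a => h.lin.smul c a.1 a.2
  map_zero' := hom_zero hA h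
  map_add' := fun a b => h.lin.add a.1 a.2 b.1 b.2
  map_mul' := fun a b => h.mul.mul a.1 a.2 b.1 b.2
  map_star' := fun a => h.mul.adj a.1 a.2

theorem norm_le_of_isHom {X Y : Type} {A : Set (Op X)} {B : Set (Op Y)} {φ : Op X → Op Y}
    (hA : IsCAlg A) (h : IsHom A B φ) (a : Op X) (ha : a ∈ A) : ‖φ a‖ ≤ ‖a‖ := by
  have hc : IsClosed ((sub hA : StarSubalgebra ℂ (Op X)) : Set (Op X)) := hA.subspace.closed
  have h1 := NonUnitalStarAlgHom.norm_apply_le (subHom hA h) (⟨a, ha⟩ : sub hA)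
  exact h1

section

variable {X Y : Type} [DecidableEq X] [DecidableEq Y] {A : Set (Op X)} {H : Set (Op Y)}
  {Δ : Op Y → Op (Y × Y)}

theorem tens_calg (hA : IsCAlg A) (hH : IsCAlg H) : IsCAlg (tens A H) := by
  rw [H584Bu.tens_eq]
  refine H584Bu.calg_of_gen ⟨1, hA.one, 1, hH.one, tn_one.symm⟩ ?_ ?_
  · rintro _ ⟨a, ha, b, hb, rfl⟩ _ ⟨a', ha', b', hb', rfl⟩
    exact ⟨_, hA.mul a ha a' ha', _, hH.mul b hb b' hb', tn_mul _ _ _ _⟩
  · rintro _ ⟨a, ha, b, hb, rfl⟩
    exact ⟨_, hA.adj a ha, _, hH.adj b hb, tn_star _ _⟩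

theorem px_inj (x : X) : Function.Injective (fun y : Y => (x, y)) :=
  fun _ _ h => (Prod.mk.inj h).2

/-- The slice `ω ⊗ id` by a matrix coefficient. -/
def sl (x x' : X) : Op (X × Y) →L[ℂ] Op Y :=
  (ContinuousLinearMap.compL ℂ (L2 Y) (L2 (X × Y)) (L2 Y)
    (H584Bu.Va (fun y : Y => (x, y)) (px_inj x))).comp
  ((ContinuousLinearMap.compL ℂ (L2 Y) (L2 (X × Y)) (L2 (X × Y))).flip
    (H584Bu.Vc (fun y : Y => (x', y)) (px_inj x')))

theorem sl_entry (x x' : X) (T : Op (X × Y)) (y y' : Y) :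
    entry (sl x x' T) y y' = entry T (x, y) (x', y') := by
  unfold entry
  change (H584Bu.Va (fun y : Y => (x, y)) (px_inj x)
    (T (H584Bu.Vc (fun y : Y => (x', y)) (px_inj x') (lp.single 2 y' (1 : ℂ)))) : Y → ℂ) y = _
  rw [H584Bu.Va_apply, H584Bu.Vc_single]

theorem sl_tn (x x' : X) (a : Op X) (b : Op Y) : sl x x' (tn a b) = entry a x x' • b := by
  apply op_ext
  intro y y'
  rw [sl_entry, tn_entry, entry_smul]

theorem sl_mem (hH : IsCAlg H) (x x' : X) : ∀ T ∈ tens A H, sl x x' T ∈ H := by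
  have hC : CSub H := ⟨hH.subspace.zero, hH.subspace.add, hH.subspace.smul, hH.subspace.closed⟩
  have h1 : tens A H ⊆ {T | sl x x' T ∈ H} :=
    tens_le (hC.preimage (sl x x') (map_add (sl x x')) (map_smul (sl x x')) (sl x x').continuous)
      fun a _ b hb => by
        rw [Set.mem_ofPred_eq, sl_tn]
        exact hH.subspace.smul _ b hb
  exact fun T hT => h1 hT

theorem cont_of_isHom {X Y : Type} {A : Set (Op X)} {B : Set (Op Y)} {Ψ : Op X → Op Y}
    (hT : IsCAlg A) (h : IsHom A B Ψ) : ContinuousOn Ψ A := by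
  have hn := norm_le_of_isHom hT h
  have hsubt : ∀ S ∈ A, ∀ T ∈ A, Ψ (S - T) = Ψ S - Ψ T := by
    intro S hS T hT'
    have h1 := h.lin.add S hS ((-1 : ℂ) • T) (hT.subspace.smul _ _ hT')
    rw [h.lin.smul (-1) T hT', neg_one_smul, neg_one_smul, ← sub_eq_add_neg,
      ← sub_eq_add_neg] at h1
    exact h1
  refine (LipschitzOnWith.of_dist_le_mul (K := 1) ?_).continuousOn
  intro S hS T hT'
  rw [dist_eq_norm, dist_eq_norm, ← hsubt S hS T hT', NNReal.coe_one, one_mul]
  refine hn _ ?_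
  have h1 := hT.subspace.add S hS ((-1 : ℂ) • T) (hT.subspace.smul _ _ hT')
  rw [neg_one_smul, ← sub_eq_add_neg] at h1
  exact h1

theorem entry_cont {Z : Type} [DecidableEq Z] (p q : Z) :
    Continuous fun T : Op Z => entry T p q := by
  have h2 : IsBoundedLinearMap ℂ fun T : Op Z => entry T p q :=
    ⟨⟨fun a b => entry_add a b p q, fun c a => entry_smul c a p q⟩, 1, one_pos,
      fun a => by rw [one_mul]; exact norm_entry_le a p q⟩
  exact h2.continuous

theorem slice_compat (hA : IsCAlg A) (hH : IsCAlg H) (hΔ : IsHom H (tens H H) Δ)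
    {Ψ : Op (X × Y) → Op (X × (Y × Y))} (hΨ : IsTensorHom A H A (tens H H) id Δ Ψ)
    (x x' : X) (y z y' z' : Y) : ∀ T ∈ tens A H,
      entry (Ψ T) (x, (y, z)) (x', (y', z')) = entry (Δ (sl x x' T)) (y, z) (y', z') := by
  have hT : IsCAlg (tens A H) := tens_calg hA hH
  have hmem := fun T hT => sl_mem (A := A) hH x x' T hT
  let E : Op (X × Y) → ℂ := fun T =>
    entry (Ψ T) (x, (y, z)) (x', (y', z')) - entry (Δ (sl x x' T)) (y, z) (y', z')
  have hEc : ContinuousOn E (tens A H) := by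
    refine ContinuousOn.sub ?_ ?_
    · exact (entry_cont _ _).comp_continuousOn (cont_of_isHom hT hΨ.hom)
    · refine (entry_cont _ _).comp_continuousOn ?_
      exact (cont_of_isHom hH hΔ).comp (sl x x').continuous.continuousOn hmem
  have hclosed : IsClosed (tens A H ∩ E ⁻¹' {0}) :=
    hEc.preimage_isClosed_of_isClosed (tens_csub A H).closed isClosed_singleton
  have hle : tens A H ⊆ tens A H ∩ E ⁻¹' {0} := by
    refine tens_le ⟨⟨(tens_csub A H).zero, ?_⟩, ?_, ?_, hclosed⟩ ?_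
    · simp only [Set.mem_preimage, Set.mem_singleton_iff, E]
      rw [hom_zero hT hΨ.hom, map_zero, hom_zero hH hΔ, H584Bu.entry_zero, H584Bu.entry_zero,
        sub_zero]
    · rintro S ⟨hS, hS2⟩ T ⟨hT1, hT2⟩
      refine ⟨(tens_csub A H).add S hS T hT1, ?_⟩
      simp only [Set.mem_preimage, Set.mem_singleton_iff, E] at hS2 hT2 ⊢
      rw [hΨ.hom.lin.add S hS T hT1, map_add, hΔ.lin.add _ (hmem S hS) _ (hmem T hT1), entry_add,
        entry_add]
      linear_combination hS2 + hT2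
    · rintro c S ⟨hS, hS2⟩
      refine ⟨(tens_csub A H).smul c S hS, ?_⟩
      simp only [Set.mem_preimage, Set.mem_singleton_iff, E] at hS2 ⊢
      rw [hΨ.hom.lin.smul c S hS, map_smul, hΔ.lin.smul c _ (hmem S hS), entry_smul, entry_smul]
      linear_combination c * hS2
    · intro a ha b hb
      refine ⟨tn_mem_tens ha hb, ?_⟩
      simp only [Set.mem_preimage, Set.mem_singleton_iff, E]
      have h1 : IsTensor a (Δ b) (Ψ (tn a b)) :=
        hΨ.tensor a ha b hb _ ((isTensor_iff _ _ _).2 rfl)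
      rw [← coeff_eq, h1, sl_tn, hΔ.lin.smul _ b hb, entry_smul, coeff_eq, coeff_eq, sub_self]
  intro T hT'
  have h1 := (hle hT').2
  simp only [Set.mem_preimage, Set.mem_singleton_iff, E] at h1
  exact sub_eq_zero.mp h1

theorem fixed_of_cocomm (hcoc : IsCocomm H Δ) : FixedScalar H Δ := by
  intro h hh hT
  by_cases hY : Nonempty Y
  · obtain ⟨y₀⟩ := hY
    refine ⟨entry h y₀ y₀, ?_⟩
    intro y y'
    have h1 := hcoc h hh y y₀ y' y₀
    rw [hT, hT, coeff_eq h y₀ y₀, coeff_eq (1 : Op Y) y₀ y₀, entry_one, if_pos rfl, mul_one] at h1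
    exact h1
  · refine ⟨0, ?_⟩
    intro y
    exact (hY ⟨y⟩).elim

/-- For a group-like unitary `g`, the slices of `φ(g)` are multiples of `g`. -/
theorem slice_scalar (hA : IsCAlg A) (hH : IsCAlg H) (hΔ : IsHom H (tens H H) Δ)
    (hE : FixedScalar H Δ) {φ : Op Y → Op (X × Y)}
    (hφ : IsHom H (tens A H) φ) (hc : Compat H A H Δ Δ φ φ) {g : Op Y} (hg : g ∈ H)
    (hgg : g * star g = 1) (hgg' : star g * g = 1) (hl : IsTensor g g (Δ g)) (x x' : X) :
    ∃ c : ℂ, ∀ y y', entry (φ g) (x, y) (x', y') = c * entry g y y' := by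
  obtain ⟨Ψ₁, Ψ₂, h1, h2, h3⟩ := hc
  have h4 := h3 g hg
  have h5 : IsTensor (φ g) g (Ψ₁ (Δ g)) := h1.tensor g hg g hg (Δ g) hl
  set F := sl x x' (φ g) with hF
  have hFm : F ∈ H := sl_mem (A := A) hH x x' _ (hφ.maps g hg)
  have h6 : Δ F = tn F g := by
    apply op_ext
    rintro ⟨y, z⟩ ⟨y', z'⟩
    rw [tn_entry, ← slice_compat hA hH hΔ h2 x x' y z y' z' (φ g) (hφ.maps g hg), ← coeff_eq,
      ← h4, h5, coeff_eq, coeff_eq, hF, sl_entry]
  have h7 : Δ g = tn g g := (isTensor_iff _ _ _).1 hl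
  have hsg : star g ∈ H := hH.adj g hg
  have h8 : Δ (F * star g) = tn (F * star g) 1 := by
    rw [hΔ.mul.mul F hFm _ hsg, hΔ.mul.adj g hg, h6, h7, tn_star, tn_mul, hgg]
  obtain ⟨c, hc0⟩ := hE (F * star g) (hH.mul F hFm _ hsg) ((isTensor_iff _ _ _).2 h8)
  have hc : F * star g = c • (1 : Op Y) := by
    apply op_ext
    intro y y'
    have h9 := hc0 y y'
    rw [coeff_eq, coeff_eq] at h9
    rw [h9, entry_smul]
  have h9 : F = c • g := by
    have h10 : F * star g * g = (c • (1 : Op Y)) * g := by rw [hc]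
    rw [mul_assoc, hgg', mul_one, smul_mul_assoc, one_mul] at h10
    exact h10
  refine ⟨c, fun y y' => ?_⟩
  rw [← sl_entry, ← hF, h9, entry_smul]

/-- The slice at a basis vector. -/
def jj (y₀ : Y) (x : X) : (X × Y) × Unit := ((x, y₀), ())

theorem jj_inj (y₀ : Y) : Function.Injective (jj (X := X) y₀) := by
  intro a b h
  simp only [jj, Prod.mk.injEq, and_true] at h
  exact h

/-- The first leg of `φ(g)` for a group-like unitary `g`. -/
def leg (y₀ : Y) (φ : Op Y → Op (X × Y)) (g : Op Y) : Op X :=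
  pull (jj y₀) (jj_inj y₀) (φ g * tn 1 (star g))

theorem leg_pull (y₀ : Y) (a : Op X) : pull (jj y₀) (jj_inj y₀) (tn a (1 : Op Y)) = a := by
  apply op_ext
  intro x x'
  rw [pull_entry]
  simp only [jj]
  rw [tn_entry, entry_one]
  simp

theorem leg_spec (y₀ : Y) (hA : IsCAlg A) (hH : IsCAlg H) (hΔ : IsHom H (tens H H) Δ)
    (hE : FixedScalar H Δ) {φ : Op Y → Op (X × Y)}
    (hφ : IsHom H (tens A H) φ) (hc : Compat H A H Δ Δ φ φ) {g : Op Y} (hg : g ∈ H)
    (hgg : g * star g = 1) (hgg' : star g * g = 1) (hl : IsTensor g g (Δ g)) :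
    φ g = tn (leg y₀ φ g) g := by
  apply op_ext
  rintro ⟨x, z⟩ ⟨x', z'⟩
  obtain ⟨c, hcc⟩ := slice_scalar hA hH hΔ hE hφ hc hg hgg hgg' hl x x'
  rw [tn_entry]
  unfold leg
  rw [pull_entry]
  simp only [jj, if_true, mul_one]
  have h1 := hasSum_entry_mul (φ g) (tn 1 (star g)) (x, y₀) (x', y₀)
  have h2 := (hasSum_entry_mul (tn (1 : Op X) g) (tn 1 (star g)) (x', y₀) (x', y₀)).mul_left c
  have h3 : ∀ q : X × Y, entry (φ g) (x, y₀) q * entry (tn (1 : Op X) (star g)) q (x', y₀)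
      = c * (entry (tn (1 : Op X) g) (x', y₀) q *
        entry (tn (1 : Op X) (star g)) q (x', y₀)) := by
    rintro ⟨p, y'⟩
    rw [tn_entry, tn_entry, entry_one, entry_one]
    by_cases hp : p = x'
    · subst hp
      rw [hcc]
      simp only [if_true, one_mul]
      ring
    · simp [hp]
  simp_rw [h3] at h1
  have h5 := h1.unique h2
  rw [tn_mul, one_mul, hgg, tn_one, entry_one] at h5
  simp only [if_true, mul_one] at h5
  rw [h5, hcc]

end

end H848NJ
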