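import Pool.Agent.H848R3.NJ.Core

/-!
No equivariant map into the join when there is a nontrivial finitely generated group of group-like
unitaries with finite abelianization.
-/

open H584BuDefs
open H584Bu (tn tn_entry tn_mul tn_one tn_star tn_smul_left tn_smul_right isTensor_iff coeff_eq tens_csub tens_le
  tn_mem_tens CSub pull pull_entry norm_pull op_ext entry_one entry_add entry_smul norm_entry_le
  hasSum_entry_mul norm_uni cspan_csub norm_tn)
open H584Roe (entry)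

set_option linter.unusedSectionVars false

noncomputable section

namespace H848NJ

section

variable {X Y : Type} [DecidableEq X] [DecidableEq Y] {A : Set (Op X)} {H : Set (Op Y)}
  {Δ : Op Y → Op (Y × Y)} {Γ : Type} [Group Γ]

/-- The representation of the group in `A` obtained from an equivariant homomorphism. -/
def legHom (y₀ : Y) (hA : IsCAlg A) (hH : IsCAlg H) (hΔ : IsHom H (tens H H) Δ)
    (hE : FixedScalar H Δ) {φ : Op Y → Op (X × Y)} (hφ : IsHom H (tens A H) φ) (hc : Compat H A H Δ Δ φ φ)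
    (u : Γ →* unitary (Op Y)) (hu : ∀ g, (u g : Op Y) ∈ H)
    (hl : ∀ g, IsTensor (u g : Op Y) (u g : Op Y) (Δ (u g : Op Y))) : Γ →* Op X where
  toFun g := leg y₀ φ (u g : Op Y)
  map_one' := by
    unfold leg
    rw [map_one, OneMemClass.coe_one, hφ.mul.one, star_one, tn_one, one_mul, ← tn_one, leg_pull]
  map_mul' g h := by
    have h1 := leg_spec y₀ hA hH hΔ hE hφ hc (hu g) (Unitary.mul_star_self_of_mem (u g).2)
      (Unitary.star_mul_self_of_mem (u g).2) (hl g)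
    have h2 := leg_spec y₀ hA hH hΔ hE hφ hc (hu h) (Unitary.mul_star_self_of_mem (u h).2)
      (Unitary.star_mul_self_of_mem (u h).2) (hl h)
    have h3 : φ (u (g * h) : Op Y) = tn (leg y₀ φ (u g) * leg y₀ φ (u h)) ((u (g * h) : Op Y)) := by
      rw [map_mul, Submonoid.coe_mul, hφ.mul.mul _ (hu g) _ (hu h)]
      conv_lhs => rw [h1, h2]
      rw [tn_mul]
    have h4 : leg y₀ φ (u (g * h) : Op Y) =
        pull (jj y₀) (jj_inj y₀) (φ (u (g * h) : Op Y) * tn 1 (star (u (g * h) : Op Y))) := rfl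
    rw [h4, h3, tn_mul, mul_one, Unitary.mul_star_self_of_mem (u (g * h)).2, leg_pull]

theorem norm_leg (y₀ : Y) (hH : IsCAlg H) {φ : Op Y → Op (X × Y)}
    (hφ : IsHom H (tens A H) φ) (v : unitary (Op Y)) (hv : (v : Op Y) ∈ H) :
    ‖leg y₀ φ (v : Op Y)‖ ≤ 1 := by
  unfold leg
  refine (norm_pull _ _ _).trans ?_
  refine (norm_mul_le _ _).trans ?_
  have h1 : ‖φ (v : Op Y)‖ ≤ 1 := (norm_le_of_isHom hH hφ _ hv).trans (norm_uni v)
  have h2 : ‖tn (1 : Op X) (star (v : Op Y))‖ ≤ 1 := by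
    refine (norm_tn _ _).trans ?_
    have h3 : ‖(1 : Op X)‖ ≤ 1 := norm_uni (1 : unitary (Op X))
    have h4 : ‖star (v : Op Y)‖ ≤ 1 := norm_uni (star v)
    calc ‖(1 : Op X)‖ * ‖star (v : Op Y)‖ ≤ 1 * 1 :=
          mul_le_mul h3 h4 (norm_nonneg _) zero_le_one
      _ = 1 := one_mul 1
  calc ‖φ (v : Op Y)‖ * ‖tn (1 : Op X) (star (v : Op Y))‖ ≤ 1 * 1 :=
        mul_le_mul h1 h2 (norm_nonneg _) zero_le_one
    _ = 1 := one_mul 1

end

theorem main {X Y : Type} [Nonempty X] (A : Set (Op X)) (H : Set (Op Y))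
    (Δ : Op Y → Op (Y × Y)) (δ : Op X → Op (X × Y)) (hH : IsCQG H Δ)
    (hE : FixedScalar H Δ)
    (hδ : IsFreeCoaction A H Δ δ) {Γ : Type} [Group Γ] (hfg : Group.FG Γ)
    (hfin : Finite (Abelianization Γ)) (u : Γ →* unitary (Op Y)) (hu : ∀ g, (u g : Op Y) ∈ H)
    (hl : ∀ g, IsTensor (u g : Op Y) (u g : Op Y) (Δ (u g : Op Y))) (hne : ∃ g, u g ≠ 1) :
    ¬ ∃ Φ : Op Y → unitInterval → Op (X × Y), IsEquivToJoin A H Δ δ Φ := by
  classical
  rintro ⟨Φ, hΦ⟩
  obtain ⟨g₀, hg₀⟩ := hne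
  have hY : Nonempty Y := by
    by_contra hemp
    rw [not_nonempty_iff] at hemp
    apply hg₀
    apply Subtype.ext
    apply op_ext
    intro i
    exact (hemp.false i).elim
  obtain ⟨y₀⟩ := hY
  obtain ⟨x₀⟩ := ‹Nonempty X›
  set R : unitInterval → Γ →* Op X := fun t =>
    legHom y₀ hδ.calg hH.calg hH.hom hE (hΦ.hom t) (hΦ.equivariant t) u hu hl with hR
  have hRa : ∀ t g, R t g = leg y₀ (fun h => Φ h t) (u g : Op Y) := fun t g => rfl
  have hspec : ∀ t g, Φ (u g : Op Y) t = tn (R t g) (u g : Op Y) := fun t g =>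
    leg_spec y₀ hδ.calg hH.calg hH.hom hE (hΦ.hom t) (hΦ.equivariant t) (hu g)
      (Unitary.mul_star_self_of_mem (u g).2) (Unitary.star_mul_self_of_mem (u g).2) (hl g)
  have hsc : ∀ g, ∃ c : ℂ, R 0 g = c • (1 : Op X) := by
    intro g
    obtain ⟨h, hh, h1⟩ := (hΦ.maps _ (hu g)).2.2.1
    rw [isTensor_iff] at h1
    refine ⟨entry (h * star (u g : Op Y)) y₀ y₀, ?_⟩
    rw [hRa]
    change pull (jj y₀) (jj_inj y₀) (Φ (u g : Op Y) 0 * tn 1 (star (u g : Op Y))) = _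
    rw [h1, tn_mul, one_mul]
    apply op_ext
    intro x x'
    rw [pull_entry]
    simp only [jj, if_true, mul_one]
    rw [tn_entry, entry_smul]
    ring
  have hR1 : ∀ t g, R t g = R 0 g := by
    refine isolation hfg hfin R ?_ ?_ hsc
    · intro t g
      exact norm_leg y₀ hH.calg (hΦ.hom t) (u g) (hu g)
    · intro g
      have h1 : Continuous (Φ (u g : Op Y)) := (hΦ.maps _ (hu g)).1
      exact (pull (jj y₀) (jj_inj y₀)).continuous.comp (h1.mul continuous_const)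
  -- at the end of the path
  apply hg₀
  apply Subtype.ext
  apply op_ext
  intro y y'
  obtain ⟨b, hb, hb1⟩ := (hΦ.maps _ (hu g₀)).2.2.2
  obtain ⟨c, hc⟩ := hsc g₀
  have hc0 : c ≠ 0 := by
    rintro rfl
    have h1 : R 0 g₀ * R 0 g₀⁻¹ = 1 := by rw [← map_mul, mul_inv_cancel, map_one]
    rw [hc, zero_smul, zero_mul] at h1
    have h11 : entry (0 : Op X) x₀ x₀ = entry (1 : Op X) x₀ x₀ := by rw [h1]
    rw [H584Bu.entry_zero, entry_one, if_pos rfl] at h11
    exact zero_ne_one h11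
  have h2 : δ b = tn 1 (c • (u g₀ : Op Y)) := by
    rw [← hb1, hspec, hR1, hc, tn_smul_left, tn_smul_right]
  have hcg : c • (u g₀ : Op Y) ∈ H := hH.calg.subspace.smul c _ (hu g₀)
  obtain ⟨Ψ₁, Ψ₂, h3, h4, h5⟩ := hδ.coassoc
  have h6 := h5 b hb
  rw [h2] at h6
  have h7 : IsTensor (δ 1) (c • (u g₀ : Op Y)) (Ψ₁ (tn 1 (c • (u g₀ : Op Y)))) :=
    h3.tensor 1 hδ.calg.one _ hcg _ ((isTensor_iff _ _ _).2 rfl)
  have h8 : IsTensor (1 : Op X) (Δ (c • (u g₀ : Op Y))) (Ψ₂ (tn 1 (c • (u g₀ : Op Y)))) :=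
    h4.tensor 1 hδ.calg.one _ hcg _ ((isTensor_iff _ _ _).2 rfl)
  rw [hδ.hom.mul.one] at h7
  rw [hH.hom.lin.smul c _ (hu g₀)] at h8
  -- pick a nonzero entry
  have hnz : ∃ z z', entry (u g₀ : Op Y) z z' ≠ 0 := by
    by_contra hcon
    push Not at hcon
    have h9 : (u g₀ : Op Y) = 0 := by
      apply op_ext
      intro i j
      rw [hcon, H584Bu.entry_zero]
    have h10 := Unitary.mul_star_self_of_mem (u g₀).2
    rw [h9, zero_mul] at h10
    have h11 : entry (0 : Op Y) y₀ y₀ = entry (1 : Op Y) y₀ y₀ := by rw [h10]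
    rw [H584Bu.entry_zero, entry_one, if_pos rfl] at h11
    exact zero_ne_one h11
  obtain ⟨z, z', hz⟩ := hnz
  have h12 : coeff (Δ (u g₀ : Op Y)) (y, z) (y', z') =
      coeff (u g₀ : Op Y) y y' * coeff (u g₀ : Op Y) z z' := hl g₀ y y' z z'
  have h9 := h6 x₀ y z x₀ y' z'
  rw [h7, h8] at h9
  rw [coeff_eq (c • Δ (u g₀ : Op Y)), entry_smul, ← coeff_eq, h12] at h9
  rw [coeff_eq, coeff_eq, coeff_eq, coeff_eq, coeff_eq, entry_one, entry_one, entry_smul,
    if_pos rfl, one_mul] at h9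
  have h10 : (if (x₀, y) = (x₀, y') then (1 : ℂ) else 0) = entry (u g₀ : Op Y) y y' := by
    have h13 : c * entry (u g₀ : Op Y) z z' ≠ 0 := mul_ne_zero hc0 hz
    apply mul_right_cancel₀ h13
    rw [h9]
    ring
  rw [← h10, OneMemClass.coe_one, entry_one]
  by_cases hyy : y = y' <;> simp [hyy]

/-- The homomorphism into the unitary group. -/
def toU {Y Γ : Type} [Group Γ] {u : Γ → Op Y} (hu : IsUnitaryRep u) : Γ →* unitary (Op Y) where
  toFun g := ⟨u g, by
    rw [Unitary.mem_iff, hu.adj, ← hu.mul, ← hu.mul, inv_mul_cancel, mul_inv_cancel, hu.one]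
    exact ⟨rfl, rfl⟩⟩
  map_one' := Subtype.ext hu.one
  map_mul' g h := Subtype.ext (hu.mul g h)

theorem main' {X Y : Type} [Nonempty X] (Q : QGroup Y) (F : FreeAction X Q)
    (hE : IsCocomm Q.H Q.Δ ∨ FixedScalar Q.H Q.Δ) (hG : HasFinAbGroup Q.H Q.Δ) :
    ¬ HasEquivToJoin Q F := by
  classical
  obtain ⟨Γ, _, u, hfg, hfin, hu, hl, g, hg⟩ := hG
  have hE' : FixedScalar Q.H Q.Δ := hE.elim (fun h => fixed_of_cocomm h) id
  refine main F.A Q.H Q.Δ F.δ Q.isCQG hE' F.free hfg hfin (toU hu) (fun g => (hl g).1)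
    (fun g => (hl g).2) ⟨g, fun h => hg ?_⟩
  rw [hu.one]
  exact congrArg Subtype.val h

end H848NJ
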